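import Pool.Agent.H154R5.NK.Final

/-!
# Sums along `k`-term progressions beyond the square root barrier

For all `k` with `log k ≥ 900` and all `N ≥ 3 k ^ 5` every `f : {1, …, N} → {-1, 1}` has a `k`-term
progression with a sum of absolute value greater than `√k + (log k) / 25`, and there is an absolute `C` such
that for ALL `k ≥ 1` and `N ≥ C k ^ 5` there is one with a sum of absolute value at least
`√k + (log k) / 25`; so `N(k, √k + (log k) / 25) ≤ C k ^ 5`. (The second moment method gives `c √k` with
`c < 1` only.)

Source of the proof: `Pool.Agent.H154R5.NK` of the starting library, never handed in. Weighted averages of the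
autocorrelations of `f` along all multiples of a difference are almost nonnegative, hence, if all sums are at
most `√k + δ`, all of them are almost zero and the sums along neighbouring progressions are mostly close to
`± √k`; but the squares of the increments over `2 ^ i` steps are about `2 · 2 ^ i` on average for every
`i ≤ log √k`, and, as the sums cannot pass `√k + δ`, these increments at different scales must come from
different places where the sum is far below `√k`.
-/

set_option autoImplicit false

namespace Pool.Agent.Results.MP_164296_co.BeyondSquareRoot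

open Finset

/-- Every `f : {1, …, N} → {-1, 1}` has a `k`-term arithmetic progression `a, a + d, …, a + (k - 1) d` in
`{1, …, N}` with `|∑ f| ≥ ℓ`; that is, `N ≥ N(k, ℓ)`. -/
def Forced (k : ℕ) (ℓ : ℝ) (N : ℕ) : Prop :=
  ∀ f : ℕ → ℤ, (∀ n, 1 ≤ n → n ≤ N → f n = 1 ∨ f n = -1) →
    ∃ a d : ℕ, 1 ≤ a ∧ 1 ≤ d ∧ a + (k - 1) * d ≤ N ∧
      ℓ ≤ |((∑ j ∈ range k, f (a + j * d) : ℤ) : ℝ)|

theorem result :
    (∃ C : ℕ, ∀ k : ℕ, 1 ≤ k → ∀ N : ℕ, C * k ^ 5 ≤ N → Forced k (√k + Real.log k / 25) N) ∧
    ∀ k N : ℕ, 900 ≤ Real.log k → 3 * k ^ 5 ≤ N → Forced k (√k + Real.log k / 25) N := by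
  refine ⟨?_, fun k N hk hN f hf => ?_⟩
  · obtain ⟨C, hC⟩ := Pool.Agent.H154R5.NK.final
    exact ⟨C, fun k hk N hN f hf => hC k hk N hN f hf⟩
  · obtain ⟨a, d, ha, hd, had, hs⟩ := Pool.Agent.H154R5.NK.large k N hk hN f hf
    exact ⟨a, d, ha, hd, had, hs.le⟩

end Pool.Agent.Results.MP_164296_co.BeyondSquareRoot
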